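import Pool.Agent.H74R2.WT.Stmts

set_option autoImplicit false

open MeasureTheory Set

namespace H74R2.WT

theorem h_line (K : Subfield ℝ) (q : ℝ × ℝ × ℝ) (h1 : q.1 ∈ K) (h2 : q.2.1 ∈ K)
    (h3 : q.1 ≠ 0 ∨ q.2.1 ≠ 0) : ∃ z : ℂ, z ≠ 0 ∧ z.re ∈ K ∧ z.im ∈ K ∧
      ∀ x y : ℂ, q.1 * x.re + q.2.1 * x.im = q.2.2 → q.1 * y.re + q.2.1 * y.im = q.2.2 →
        ∃ r : ℝ, x - y = r * z := by
  obtain ⟨a, b, c⟩ := q
  simp only at h1 h2 h3 ⊢
  refine ⟨⟨b, -a⟩, ?_, h2, K.neg_mem h1, ?_⟩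
  · intro h
    have h4 := congrArg Complex.re h
    have h5 := congrArg Complex.im h
    simp at h4 h5
    rcases h3 with h3 | h3
    · exact h3 h5
    · exact h3 h4
  · intro x y hx hy
    have hpos : a ^ 2 + b ^ 2 ≠ 0 := by
      rcases h3 with h3 | h3
      · have := pow_pos (abs_pos.2 h3) 2
        rw [sq_abs] at this
        positivity
      · have := pow_pos (abs_pos.2 h3) 2
        rw [sq_abs] at this
        positivity
    have hd : a * (x.re - y.re) + b * (x.im - y.im) = 0 := by linarith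
    refine ⟨((x.re - y.re) * b - (x.im - y.im) * a) / (a ^ 2 + b ^ 2), ?_⟩
    apply Complex.ext
    · rw [Complex.sub_re, Complex.re_ofReal_mul]
      show _ = _ * b
      field_simp
      linear_combination a * hd
    · rw [Complex.sub_im, Complex.im_ofReal_mul]
      show _ = _ * (-a)
      field_simp
      linear_combination b * hd

theorem h_front (K : Subfield ℝ) (P A : Set ℂ) (u b : ℂ) (hu : u ≠ 0) (hP : Gd K P)
    (hc : Cong P A u b) : ∃ (F : Finset (ℝ × ℝ × ℝ)) (S : ℝ × ℝ × ℝ → Set ℂ),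
      frontier A ⊆ ⋃ q ∈ F, S q ∧ ∀ q ∈ F, ∃ z : ℂ, z ≠ 0 ∧ z.re ∈ K ∧ z.im ∈ K ∧
        ∀ x ∈ S q, ∀ y ∈ S q, ∃ r : ℝ, x - y = r * (u * z) := by
  obtain ⟨L, hL, hfr⟩ := hP.lines
  have key : ∀ g : ℂ ≃ₜ ℂ, A = g '' P → frontier A ⊆ ⋃ q ∈ L, g '' {z | q.1 * z.re + q.2.1 * z.im = q.2.2} := by
    intro g hg x hx
    rw [hg, ← g.image_frontier] at hx
    obtain ⟨w, hw, rfl⟩ := hx
    obtain ⟨q, hq, hqw⟩ := hfr hw
    exact mem_iUnion₂.2 ⟨q, hq, w, hqw, rfl⟩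
  rcases hc with hc | hc
  · let g : ℂ ≃ₜ ℂ := (Homeomorph.mulLeft₀ u hu).trans (Homeomorph.addRight b)
    have hg : ∀ z, g z = u * z + b := fun z => rfl
    refine ⟨L, fun q => g '' {z | q.1 * z.re + q.2.1 * z.im = q.2.2}, key g hc, ?_⟩
    intro q hq
    obtain ⟨h1, h2, h3⟩ := hL q hq
    obtain ⟨z, hz0, hz1, hz2, hz3⟩ := h_line K q h1 h2 h3
    refine ⟨z, hz0, hz1, hz2, ?_⟩
    rintro _ ⟨x, hx, rfl⟩ _ ⟨y, hy, rfl⟩
    obtain ⟨r, hr⟩ := hz3 x y hx hy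
    refine ⟨r, ?_⟩
    rw [hg, hg]
    linear_combination u * hr
  · let g : ℂ ≃ₜ ℂ := Complex.conjLIE.toHomeomorph.trans
      ((Homeomorph.mulLeft₀ u hu).trans (Homeomorph.addRight b))
    have hg : ∀ z, g z = u * (starRingEnd ℂ) z + b := fun z => rfl
    refine ⟨L, fun q => g '' {z | q.1 * z.re + q.2.1 * z.im = q.2.2}, key g hc, ?_⟩
    intro q hq
    obtain ⟨h1, h2, h3⟩ := hL q hq
    obtain ⟨z, hz0, hz1, hz2, hz3⟩ := h_line K q h1 h2 h3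
    refine ⟨(starRingEnd ℂ) z, ?_, ?_, ?_, ?_⟩
    · rwa [Ne, map_eq_zero]
    · rwa [Complex.conj_re]
    · rw [Complex.conj_im]; exact K.neg_mem hz2
    rintro _ ⟨x, hx, rfl⟩ _ ⟨y, hy, rfl⟩
    obtain ⟨r, hr⟩ := hz3 x y hx hy
    refine ⟨r, ?_⟩
    have hr' := congrArg (starRingEnd ℂ) hr
    rw [map_sub, map_mul, Complex.conj_ofReal] at hr'
    rw [hg, hg]
    linear_combination u * hr'

/-- two unit vectors whose lines are parallel -/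
theorem h_par (K : Subfield ℝ) (hK : ∀ a b : ℝ, a ∈ K → b ∈ K → Real.sqrt (a ^ 2 + b ^ 2) ∈ K)
    (u v z w : ℂ) (r s : ℝ) (hu : ‖u‖ = 1) (hv : ‖v‖ = 1) (hz : z ≠ 0) (hw : w ≠ 0)
    (hz1 : z.re ∈ K) (hz2 : z.im ∈ K) (hw1 : w.re ∈ K) (hw2 : w.im ∈ K) (hr : r ≠ 0)
    (h : (r : ℂ) * (u * z) = s * (v * w)) : ∃ t ∈ uD K, v = u * t := by
  have hu0 : u ≠ 0 := by rintro rfl; simp at hu
  have hv0 : v ≠ 0 := by rintro rfl; simp at hv
  have hs : s ≠ 0 := by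
    rintro rfl
    simp only [Complex.ofReal_zero, zero_mul, mul_eq_zero, Complex.ofReal_eq_zero] at h
    rcases h with h | h | h
    · exact hr h
    · exact hu0 h
    · exact hz h
  have hrC : (r : ℂ) ≠ 0 := Complex.ofReal_ne_zero.2 hr
  have hsC : (s : ℂ) ≠ 0 := Complex.ofReal_ne_zero.2 hs
  obtain ⟨m, hm⟩ : ∃ m, m = z * (starRingEnd ℂ) w := ⟨_, rfl⟩
  have hm0 : m ≠ 0 := by
    rw [hm]; exact mul_ne_zero hz (by rwa [Ne, map_eq_zero])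
  have hmre : m.re ∈ K := by
    rw [hm, Complex.mul_re, Complex.conj_re, Complex.conj_im]
    exact K.sub_mem (K.mul_mem hz1 hw1) (K.mul_mem hz2 (K.neg_mem hw2))
  have hmim : m.im ∈ K := by
    rw [hm, Complex.mul_im, Complex.conj_re, Complex.conj_im]
    exact K.add_mem (K.mul_mem hz1 (K.neg_mem hw2)) (K.mul_mem hz2 hw1)
  have hnm : ‖m‖ ∈ K := by
    have h1 : ‖m‖ = Real.sqrt (m.re ^ 2 + m.im ^ 2) := by
      rw [Complex.norm_def, Complex.normSq_apply, sq, sq]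
    rw [h1]; exact hK _ _ hmre hmim
  have hnm0 : ‖m‖ ≠ 0 := norm_ne_zero_iff.2 hm0
  have hnmC : (‖m‖ : ℂ) ≠ 0 := Complex.ofReal_ne_zero.2 hnm0
  -- `v = ρ u m`
  obtain ⟨ρ, hρ⟩ : ∃ ρ : ℝ, ρ = r / s / ‖w‖ ^ 2 := ⟨_, rfl⟩
  have hww : w * (starRingEnd ℂ) w = ((‖w‖ ^ 2 : ℝ) : ℂ) := by
    rw [Complex.mul_conj, Complex.normSq_eq_norm_sq]
  have hw2' : ((‖w‖ ^ 2 : ℝ) : ℂ) ≠ 0 :=
    Complex.ofReal_ne_zero.2 (pow_ne_zero 2 (norm_ne_zero_iff.2 hw))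
  have hvm : v = (ρ : ℂ) * (u * m) := by
    have h1 : (s : ℂ) * ((‖w‖ ^ 2 : ℝ) : ℂ) * v = r * (u * m) := by
      rw [← hww, hm]
      linear_combination (-(starRingEnd ℂ) w) * h
    have h2 : (ρ : ℂ) = r / s / ((‖w‖ ^ 2 : ℝ) : ℂ) := by rw [hρ]; push_cast; ring
    rw [h2]
    field_simp
    linear_combination h1
  have habs : |ρ| * ‖m‖ = 1 := by
    have h1 := congrArg norm hvm
    rw [norm_mul, norm_mul, hu, hv, Complex.norm_real, Real.norm_eq_abs, one_mul] at h1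
    exact h1.symm
  have hmem : ∀ c : ℝ, c ∈ K → |c| = 1 → (c : ℂ) * (m / ‖m‖) ∈ uD K := by
    intro c hc hc1
    refine ⟨?_, ?_, ?_⟩
    · rw [norm_mul, Complex.norm_real, Real.norm_eq_abs, hc1, one_mul, norm_div, Complex.norm_real,
        norm_norm, div_self hnm0]
    · rw [Complex.re_ofReal_mul, Complex.div_ofReal_re]
      exact K.mul_mem hc (K.div_mem hmre hnm)
    · rw [Complex.im_ofReal_mul, Complex.div_ofReal_im]
      exact K.mul_mem hc (K.div_mem hmim hnm)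
  have hmp : 0 < ‖m‖ := norm_pos_iff.2 hm0
  rcases le_total 0 ρ with h0 | h0
  · refine ⟨((1 : ℝ) : ℂ) * (m / ‖m‖), hmem 1 K.one_mem (by simp), ?_⟩
    rw [abs_of_nonneg h0] at habs
    have h3 : (ρ : ℂ) * ‖m‖ = 1 := by exact_mod_cast habs
    rw [hvm]
    field_simp
    push_cast
    linear_combination h3
  · refine ⟨((-1 : ℝ) : ℂ) * (m / ‖m‖), hmem (-1) (K.neg_mem K.one_mem) (by simp), ?_⟩
    rw [abs_of_nonpos h0] at habs
    have h3 : -(ρ : ℂ) * ‖m‖ = 1 := by exact_mod_cast habs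
    rw [hvm]
    field_simp
    push_cast
    linear_combination -h3

theorem uD_mul (K : Subfield ℝ) {u v : ℂ} (hu : u ∈ uD K) (hv : v ∈ uD K) : u * v ∈ uD K := by
  obtain ⟨h1, h2, h3⟩ := hu
  obtain ⟨h4, h5, h6⟩ := hv
  refine ⟨by rw [norm_mul, h1, h4, one_mul], ?_, ?_⟩
  · rw [Complex.mul_re]; exact K.sub_mem (K.mul_mem h2 h5) (K.mul_mem h3 h6)
  · rw [Complex.mul_im]; exact K.add_mem (K.mul_mem h2 h6) (K.mul_mem h3 h5)

/-- unions of tiles are closed -/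
theorem h_closed (T S : Set (Set ℂ)) (hS : S ⊆ T)
    (hf : ∀ R : ℝ, {A ∈ T | (A ∩ Metric.closedBall 0 R).Nonempty}.Finite)
    (hc : ∀ A ∈ T, IsClosed A) : IsClosed (⋃₀ S) := by
  rw [sUnion_eq_iUnion]
  refine LocallyFinite.isClosed_iUnion ?_ fun A => hc A.1 (hS A.2)
  intro x
  refine ⟨Metric.closedBall 0 (‖x‖ + 1), ?_, ?_⟩
  · refine Filter.mem_of_superset (Metric.ball_mem_nhds x one_pos) ?_
    intro y hy
    rw [Metric.mem_ball, dist_eq_norm] at hy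
    rw [mem_closedBall_zero_iff]
    calc ‖y‖ = ‖(y - x) + x‖ := by rw [sub_add_cancel]
      _ ≤ ‖y - x‖ + ‖x‖ := norm_add_le _ _
      _ ≤ ‖x‖ + 1 := by linarith
  · have h1 := hf (‖x‖ + 1)
    refine Set.Finite.of_finite_image (f := Subtype.val) (h1.subset ?_)
      Subtype.val_injective.injOn
    rintro _ ⟨A, hA, rfl⟩
    exact ⟨hS A.2, hA⟩

theorem t_H : T_H := by
  intro hK0 hO K hK P T hP hPK hT
  obtain ⟨hTne, hTc, hTf, hTreg, -⟩ := hO P T hP hT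
  have hcong : ∀ A ∈ T, ∃ u b : ℂ, ‖u‖ = 1 ∧ Cong P A u b := by
    intro A hA
    obtain ⟨g, hg⟩ := hT.tile A hA
    obtain ⟨u, b, hu, h | h⟩ := hK0 g
    · refine ⟨u, b, hu, Or.inl ?_⟩
      rw [hg]
      exact image_congr fun z _ => h z
    · refine ⟨u, b, hu, Or.inr ?_⟩
      rw [hg]
      exact image_congr fun z _ => h z
  obtain ⟨A0, hA0⟩ := hTne
  obtain ⟨ε, b0, hε, hc0⟩ := hcong A0 hA0
  refine ⟨ε, hε, ?_⟩
  obtain ⟨T1, hT1⟩ : ∃ T1 : Set (Set ℂ), T1 = {A ∈ T | ∃ u ∈ uD K, ∃ b : ℂ, Cong P A (ε * u) b} :=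
    ⟨_, rfl⟩
  suffices h : T ⊆ T1 by
    intro A hA
    have := h hA
    rw [hT1] at this
    exact this.2
  have hT1T : T1 ⊆ T := by rw [hT1]; exact fun A hA => hA.1
  have hA01 : A0 ∈ T1 := by
    rw [hT1]
    refine ⟨hA0, 1, ⟨by simp, ?_, ?_⟩, b0, by rwa [mul_one]⟩
    · rw [Complex.one_re]; exact K.one_mem
    · rw [Complex.one_im]; exact K.zero_mem
  have hclosed : ∀ A ∈ T, IsClosed A := fun A hA => (hTreg A hA).cpt.isClosed
  have hX1 : IsClosed (⋃₀ T1) := h_closed T T1 hT1T hTf hclosed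
  have hX2 : IsClosed (⋃₀ (T \ T1)) := h_closed T (T \ T1) sdiff_subset hTf hclosed
  have hun : ∀ z : ℂ, z ∈ ⋃₀ T1 ∪ ⋃₀ (T \ T1) := by
    intro z
    have hz : z ∈ ⋃₀ T := by rw [hT.cover]; exact mem_univ z
    obtain ⟨A, hA, hzA⟩ := hz
    by_cases h : A ∈ T1
    · exact Or.inl ⟨A, h, hzA⟩
    · exact Or.inr ⟨A, ⟨hA, h⟩, hzA⟩
  -- intersections of tiles of different classes are finite
  have hfin : ∀ A ∈ T1, ∀ B ∈ T \ T1, (A ∩ B).Finite := by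
    intro A hA B hB
    have hAT := hT1T hA
    have hAB : A ≠ B := by rintro rfl; exact hB.2 hA
    have hdis := hT.disj hAT hB.1 hAB
    rw [hT1] at hA
    obtain ⟨-, u, hu, b, hcA⟩ := hA
    obtain ⟨v, b', hv, hcB⟩ := hcong B hB.1
    have hεu : ‖ε * u‖ = 1 := by rw [norm_mul, hε, hu.1, one_mul]
    have hεu0 : ε * u ≠ 0 := by rw [← norm_ne_zero_iff, hεu]; exact one_ne_zero
    have hv0 : v ≠ 0 := by rw [← norm_ne_zero_iff, hv]; exact one_ne_zero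
    obtain ⟨F, S, hFS, hF⟩ := h_front K P A (ε * u) b hεu0 hPK hcA
    obtain ⟨F', S', hFS', hF'⟩ := h_front K P B v b' hv0 hPK hcB
    have hsub : A ∩ B ⊆ frontier A ∩ frontier B := by
      rintro x ⟨hxA, hxB⟩
      constructor
      · refine ⟨subset_closure hxA, fun hxi => ?_⟩
        have h1 := (hTreg B hB.1).reg hxB
        rw [mem_closure_iff] at h1
        obtain ⟨y, hy1, hy2⟩ := h1 _ isOpen_interior hxi
        exact Set.disjoint_left.1 hdis hy1 hy2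
      · refine ⟨subset_closure hxB, fun hxi => ?_⟩
        have h1 := (hTreg A hAT).reg hxA
        rw [mem_closure_iff] at h1
        obtain ⟨y, hy1, hy2⟩ := h1 _ isOpen_interior hxi
        exact Set.disjoint_left.1 hdis hy2 hy1
    have hsub2 : A ∩ B ⊆ ⋃ q ∈ F, ⋃ q' ∈ F', (S q ∩ S' q') := by
      intro x hx
      obtain ⟨h1, h2⟩ := hsub hx
      obtain ⟨q, hq, hxq⟩ := mem_iUnion₂.1 (hFS h1)
      obtain ⟨q', hq', hxq'⟩ := mem_iUnion₂.1 (hFS' h2)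
      exact mem_iUnion₂.2 ⟨q, hq, mem_iUnion₂.2 ⟨q', hq', hxq, hxq'⟩⟩
    refine Set.Finite.subset ?_ hsub2
    refine Set.Finite.biUnion (Finset.finite_toSet F) fun q hq => ?_
    refine Set.Finite.biUnion (Finset.finite_toSet F') fun q' hq' => ?_
    apply Set.Subsingleton.finite
    intro x hx y hy
    by_contra hxy
    obtain ⟨z, hz0, hz1, hz2, hz⟩ := hF q hq
    obtain ⟨w, hw0, hw1, hw2, hw⟩ := hF' q' hq'
    obtain ⟨r, hr⟩ := hz x hx.1 y hy.1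
    obtain ⟨s, hs⟩ := hw x hx.2 y hy.2
    have hr0 : r ≠ 0 := by
      rintro rfl
      apply hxy
      rw [Complex.ofReal_zero, zero_mul, sub_eq_zero] at hr
      exact hr
    obtain ⟨t, ht, hvt⟩ := h_par K hK (ε * u) v z w r s hεu hv hz0 hw0 hz1 hz2 hw1 hw2 hr0
      (by rw [← hr, ← hs])
    apply hB.2
    rw [hT1]
    exact ⟨hB.1, u * t, uD_mul K hu ht, b', by rw [← mul_assoc, ← hvt]; exact hcB⟩
  have hZ : (⋃₀ T1 ∩ ⋃₀ (T \ T1)).Countable := by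
    have hsub : ⋃₀ T1 ∩ ⋃₀ (T \ T1) ⊆ ⋃ A ∈ T1, ⋃ B ∈ T \ T1, (A ∩ B) := by
      rintro x ⟨⟨A, hA, hxA⟩, B, hB, hxB⟩
      exact mem_iUnion₂.2 ⟨A, hA, mem_iUnion₂.2 ⟨B, hB, hxA, hxB⟩⟩
    refine Set.Countable.mono hsub ?_
    refine Set.Countable.biUnion (hTc.mono hT1T) fun A hA => ?_
    refine Set.Countable.biUnion (hTc.mono sdiff_subset) fun B hB => ?_
    exact (hfin A hA B hB).countable
  have hrank : 1 < Module.rank ℝ ℂ := by
    rw [Complex.rank_real_complex]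
    exact Cardinal.one_lt_two
  have hconn := (hZ.isConnected_compl_of_one_lt_rank hrank).isPreconnected
  have hmeet : ∀ A ∈ T, (A ∩ (⋃₀ T1 ∩ ⋃₀ (T \ T1))ᶜ).Nonempty := by
    intro A hA
    have hd : Dense (⋃₀ T1 ∩ ⋃₀ (T \ T1))ᶜ := hZ.dense_compl ℝ
    obtain ⟨x, hx1, hx2⟩ := hd.inter_open_nonempty _ isOpen_interior (hTreg A hA).ne
    exact ⟨x, interior_subset hx1, hx2⟩
  intro B hB
  by_contra hB1
  rw [isPreconnected_closed_iff] at hconn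
  obtain ⟨x, hx1, hx2⟩ := hmeet A0 hA0
  obtain ⟨y, hy1, hy2⟩ := hmeet B hB
  obtain ⟨p, hp1, hp2⟩ := hconn _ _ hX1 hX2 (fun z _ => hun z) ⟨x, hx2, A0, hA01, hx1⟩
    ⟨y, hy2, B, ⟨hB, hB1⟩, hy1⟩
  exact hp1 hp2

end H74R2.WT
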