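import Pool.Agent.H308R2.ZS.Stubs

set_option autoImplicit false

open scoped ComplexConjugate Kronecker Matrix.Norms.L2Operator
open MeasureTheory Filter Topology

noncomputable section

namespace Pool.Agent.H308R2.ZS.T_ATM

open Pool.Agent.H923R2.FP Pool.Agent.H923R2.FZ Pool.Agent.H308R2.ZS

theorem atm_cc (A : Type) [CStarAlgebra A] : ContinuousFunctionalCalculus ℝ A IsSelfAdjoint :=
  inferInstance

theorem atm_inst (n : ℕ) : ContinuousFunctionalCalculus ℝ C(unitInterval, MM n) IsSelfAdjoint :=
  atm_cc C(unitInterval, MM n)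

/-- evaluation at a point -/
def evl (n : ℕ) (t : unitInterval) : C(unitInterval, MM n) →⋆ₐ[ℂ] MM n where
  toFun F := F t
  map_one' := rfl
  map_mul' _ _ := rfl
  map_zero' := rfl
  map_add' _ _ := rfl
  commutes' _ := rfl
  map_star' _ := rfl

/-- the trace of `cfc F A` -/
theorem trace_cfc {ι : Type} [Fintype ι] [DecidableEq ι] {A : Matrix ι ι ℂ} (hA : A.IsHermitian)
    (F : ℝ → ℝ) : ∑ p, (cfc F A) p p = ∑ i, ((F (hA.eigenvalues i) : ℝ) : ℂ) := by
  rw [hA.cfc_eq F]
  show (hA.cfc F).trace = _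
  unfold Matrix.IsHermitian.cfc
  rw [Unitary.conjStarAlgAut_apply, Matrix.trace_mul_comm, ← mul_assoc]
  simp [Matrix.trace, Matrix.diag]

theorem mlt_ge {ι : Type} [Fintype ι] [DecidableEq ι] {A : Matrix ι ι ℂ} (hA : A.IsHermitian)
    (c : ℝ) : (Finset.univ.filter (fun i => hA.eigenvalues i = c)).card ≤ mlt A c := by
  classical
  have hli : LinearIndependent ℂ (fun i : ι => (⇑(hA.eigenvectorBasis i) : ι → ℂ)) := by
    have h1 := hA.eigenvectorBasis.orthonormal.linearIndependent
    exact h1.map' (WithLp.linearEquiv 2 ℂ (ι → ℂ)).toLinearMap (LinearEquiv.ker _)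
  have hli2 : LinearIndependent ℂ (fun i : {i // hA.eigenvalues i = c} =>
      (⇑(hA.eigenvectorBasis i.1) : ι → ℂ)) := hli.comp _ Subtype.val_injective
  have hmem : ∀ i : {i // hA.eigenvalues i = c}, (⇑(hA.eigenvectorBasis i.1) : ι → ℂ) ∈
      LinearMap.ker (Matrix.toLin' (A - (c : ℂ) • (1 : Matrix ι ι ℂ))) := by
    intro i
    rw [LinearMap.mem_ker, Matrix.toLin'_apply, Matrix.sub_mulVec, hA.mulVec_eigenvectorBasis,
      Matrix.smul_mulVec, Matrix.one_mulVec, i.2]
    rw [sub_eq_zero]
    rfl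
  have hli3 : LinearIndependent ℂ (fun i : {i // hA.eigenvalues i = c} =>
      (⟨_, hmem i⟩ : LinearMap.ker (Matrix.toLin' (A - (c : ℂ) • (1 : Matrix ι ι ℂ))))) := by
    apply LinearIndependent.of_comp (LinearMap.ker (Matrix.toLin' (A - (c : ℂ) • (1 : Matrix ι ι ℂ)))).subtype
    exact hli2
  have h := hli3.fintype_card_le_finrank
  rw [Fintype.card_subtype] at h
  exact h

/-- the tent functions -/
def tent (c : ℝ) (m : ℕ) (s : ℝ) : ℝ := max 0 (1 - m * |s - c|)

theorem tent_cont (c : ℝ) (m : ℕ) : Continuous (tent c m) := by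
  unfold tent; fun_prop

theorem tent_nonneg (c : ℝ) (m : ℕ) (s : ℝ) : 0 ≤ tent c m s := le_max_left _ _

theorem tent_le_one (c : ℝ) (m : ℕ) (s : ℝ) : tent c m s ≤ 1 := by
  unfold tent
  refine max_le zero_le_one ?_
  have : 0 ≤ (m : ℝ) * |s - c| := by positivity
  linarith

theorem tent_self (c : ℝ) (m : ℕ) : tent c m c = 1 := by simp [tent]

theorem tent_tendsto (c s : ℝ) : Tendsto (fun m => tent c m s) atTop (𝓝 (if s = c then 1 else 0)) := by
  split_ifs with h
  · subst h
    simp only [tent_self]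
    exact tendsto_const_nhds
  · have h0 : 0 < |s - c| := abs_pos.2 (sub_ne_zero.2 h)
    obtain ⟨m₀, hm₀⟩ := exists_nat_gt (|s - c|⁻¹)
    refine tendsto_const_nhds.congr' ?_
    filter_upwards [eventually_ge_atTop m₀] with m hm
    unfold tent
    symm
    apply max_eq_left
    have h1 : |s - c|⁻¹ < m := hm₀.trans_le (by exact_mod_cast hm)
    rw [inv_lt_iff_one_lt_mul₀ h0] at h1
    linarith

theorem t_ATM : S_ATM := by
  intro n r h hh μ _ hr c ε hε
  have hher : ∀ t, (h t).IsHermitian := by
    intro t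
    have h1 : (star h) t = h t := by rw [hh]
    exact h1
  have hN : (0:ℝ) < (n + 1) * (n + 2) := by positivity
  have hcard : (Fintype.card (Ix n) : ℂ) = (((n:ℝ) + 1) * (n + 2) : ℝ) := by
    simp [Ix]
  -- the values
  have hval : ∀ (m : ℕ) t, ntr (cfc (tent c m) (h t)) =
      (((∑ i, tent c m ((hher t).eigenvalues i)) / ((n + 1) * (n + 2)) : ℝ) : ℂ) := by
    intro m t
    unfold ntr
    rw [trace_cfc (hher t), hcard]
    push_cast
    rfl
  have hcont : ∀ m, Continuous (fun t => ntr (cfc (tent c m) (h t))) := by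
    intro m
    have inst := atm_inst n
    have h1 : ∀ t, cfc (tent c m) (h t) = (cfc (tent c m) h : C(unitInterval, MM n)) t := by
      intro t
      have hsa : IsSelfAdjoint h := hh
      have h2 : Continuous (evl n t) := continuous_eval_const t
      exact (StarAlgHom.map_cfc (evl n t) (tent c m) h ((tent_cont c m).continuousOn) h2 hsa
        (hsa.map (evl n t))).symm
    simp_rw [h1]
    unfold ntr
    refine Continuous.div_const (continuous_finsetSum _ fun p _ => ?_) _
    exact ((cfc (tent c m) h : C(unitInterval, MM n)).continuous).matrix_elem p p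
  have hb : ∀ m t, ‖ntr (cfc (tent c m) (h t))‖ ≤ 1 := by
    intro m t
    rw [hval, Complex.norm_real, Real.norm_eq_abs, abs_of_nonneg
      (div_nonneg (Finset.sum_nonneg fun i _ => tent_nonneg _ _ _) hN.le), div_le_one hN]
    calc ∑ i, tent c m ((hher t).eigenvalues i) ≤ ∑ _i : Ix n, (1:ℝ) :=
          Finset.sum_le_sum fun i _ => tent_le_one _ _ _
      _ = (n + 1) * (n + 2) := by simp [Ix]
  have hlim : ∀ t, Tendsto (fun m => ntr (cfc (tent c m) (h t))) atTop
      (𝓝 (((((Finset.univ.filter (fun i => (hher t).eigenvalues i = c)).card : ℝ) /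
        ((n + 1) * (n + 2)) : ℝ)) : ℂ)) := by
    intro t
    simp_rw [hval]
    refine (Complex.continuous_ofReal.tendsto _).comp ?_
    refine Tendsto.div_const ?_ _
    have : (((Finset.univ.filter (fun i => (hher t).eigenvalues i = c)).card : ℝ)) =
        ∑ i, if (hher t).eigenvalues i = c then (1:ℝ) else 0 := by
      rw [Finset.sum_ite]; simp
    rw [this]
    exact tendsto_finsetSum _ fun i _ => tent_tendsto c _
  obtain ⟨L, hL⟩ : ∃ L : unitInterval → ℂ, L = fun t =>
    (((((Finset.univ.filter (fun i => (hher t).eigenvalues i = c)).card : ℝ) /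
        ((n + 1) * (n + 2)) : ℝ)) : ℂ) := ⟨_, rfl⟩
  have hdc : Tendsto (fun m => ∫ t, ntr (cfc (tent c m) (h t)) ∂μ) atTop (𝓝 (∫ t, L t ∂μ)) := by
    refine tendsto_integral_of_dominated_convergence (fun _ => (1:ℝ))
      (fun m => (hcont m).aestronglyMeasurable) (integrable_const _)
      (fun m => Eventually.of_forall fun t => hb m t) (Eventually.of_forall fun t => ?_)
    rw [hL]; exact hlim t
  have hLint : (∫ t, L t ∂μ).re ≤ (r : ℝ) / ((n + 1) * (n + 2)) := by
    have hmeas : AEStronglyMeasurable L μ :=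
      aestronglyMeasurable_of_tendsto_ae atTop (fun m => (hcont m).aestronglyMeasurable)
        (Eventually.of_forall fun t => by rw [hL]; exact hlim t)
    have hLb : ∀ t, ‖L t‖ ≤ 1 := by
      intro t
      have := hlim t
      have h2 : L t = _ := congrFun hL t
      rw [← h2] at this
      exact le_of_tendsto this.norm (Eventually.of_forall fun m => hb m t)
    have hint : Integrable L μ := Integrable.of_bound hmeas 1 (Eventually.of_forall hLb)
    have h1 : (∫ t, L t ∂μ).re = ∫ t, (L t).re ∂μ := by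
      have := integral_re hint
      simpa using this.symm
    rw [h1]
    have h2 : ∫ t, (L t).re ∂μ ≤ ∫ _t, (r : ℝ) / ((n + 1) * (n + 2)) ∂μ := by
      refine integral_mono_ae hint.re (integrable_const _) ?_
      filter_upwards [hr] with t ht
      rw [hL]
      show (((((Finset.univ.filter (fun i => (hher t).eigenvalues i = c)).card : ℝ) /
        ((n + 1) * (n + 2)) : ℝ)) : ℂ).re ≤ _
      rw [Complex.ofReal_re]
      refine div_le_div_of_nonneg_right ?_ hN.le
      exact_mod_cast (mlt_ge (hher t) c).trans (ht c)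
    refine h2.trans (le_of_eq ?_)
    simp
  have hre : Tendsto (fun m => (∫ t, ntr (cfc (tent c m) (h t)) ∂μ).re) atTop
      (𝓝 (∫ t, L t ∂μ).re) := (Complex.continuous_re.tendsto _).comp hdc
  have hev := hre.eventually_lt_const (u := (r : ℝ) / ((n + 1) * (n + 2)) + ε) (by linarith)
  obtain ⟨m, hm⟩ := hev.exists
  exact ⟨tent c m, tent_cont c m, tent_nonneg c m, tent_self c m, hm⟩

end Pool.Agent.H308R2.ZS.T_ATM
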